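import Pool.Agent.helper27.SY.Spec

/-!
# Project sy (MP_5628fe_nt), module WSTP: one block of the sieve weights
-/

set_option autoImplicit false

open Finset ArithmeticFunction

namespace Pool.Agent.SY

open Pool.Agent.SX Pool.Agent.helper85.BVP Pool.Agent.Lib.BrunHooley

/-- Both kinds of weights: `s = 1` lower, `s = -1` upper. -/
def WSTP_W (s : ℝ) (h B : ℕ) (v : ℝ) : Prop := ∃ c : Finset ℕ → ℝ, (∀ E, |c E| ≤ 1) ∧
  (∀ E, c E ≠ 0 → E ⊆ Pr h ∧ (∏ p ∈ E, p) ^ 10 ≤ 2 ^ B) ∧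
  (∀ Γ ⊆ Pr h, s * ∑ E ∈ Γ.powerset, c E ≤ s * if Γ = ∅ then 1 else 0) ∧
  s * (V (Pr h) * (1 - s * v)) ≤ s * ∑ E ∈ (Pr h).powerset, c E * g E

theorem WSTP_lo (h B : ℕ) (v : ℝ) : WSTP_W 1 h B v ↔ WLo h B v := by
  unfold WSTP_W WLo
  simp only [one_mul]

theorem WSTP_up (h B : ℕ) (v : ℝ) : WSTP_W (-1) h B v ↔ WUp h B v := by
  unfold WSTP_W WUp
  simp only [neg_mul, one_mul, neg_le_neg_iff, sub_neg_eq_add]

/-- The combined weights. -/
noncomputable def WSTP_c (P Q : Finset ℕ) (K : ℕ) (c : ℕ → Finset ℕ → ℝ) (F : Finset ℕ) : ℝ :=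
  if (F ∩ Q).card ≤ K then (-1) ^ (F ∩ Q).card * c (F ∩ Q).card (F ∩ P) else 0

theorem WSTP_split {P Q Γ₀ Γ₁ : Finset ℕ} (hPQ : Disjoint P Q) (h0 : Γ₀ ⊆ P) (h1 : Γ₁ ⊆ Q)
    (Φ : Finset ℕ → ℝ) :
    ∑ F ∈ (Γ₀ ∪ Γ₁).powerset, Φ F = ∑ S ∈ Γ₁.powerset, ∑ E ∈ Γ₀.powerset, Φ (E ∪ S) := by
  rw [← sum_product']
  symm
  refine sum_nbij' (fun x => x.2 ∪ x.1) (fun F => (F ∩ Q, F ∩ P)) ?_ ?_ ?_ ?_ ?_
  · rintro ⟨S, E⟩ hx
    rw [mem_product, mem_powerset, mem_powerset] at hx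
    rw [mem_powerset]
    exact union_subset_union hx.2 hx.1
  · intro F hF
    rw [mem_powerset] at hF
    rw [mem_product, mem_powerset, mem_powerset]
    constructor
    · intro p hp
      rw [mem_inter] at hp
      rcases mem_union.1 (hF hp.1) with h2 | h2
      · exact absurd hp.2 (Finset.disjoint_left.1 hPQ (h0 h2))
      · exact h2
    · intro p hp
      rw [mem_inter] at hp
      rcases mem_union.1 (hF hp.1) with h2 | h2
      · exact h2
      · exact absurd (h1 h2) (Finset.disjoint_left.1 hPQ hp.2)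
  · rintro ⟨S, E⟩ hx
    rw [mem_product, mem_powerset, mem_powerset] at hx
    obtain ⟨hS, hE⟩ := hx
    have hS' : S ⊆ Q := (show S ⊆ Γ₁ from hS).trans h1
    have hE' : E ⊆ P := (show E ⊆ Γ₀ from hE).trans h0
    refine Prod.ext ?_ ?_
    · ext p
      simp only [mem_inter, mem_union]
      constructor
      · rintro ⟨h2 | h2, h3⟩
        · exact absurd h3 (Finset.disjoint_left.1 hPQ (hE' h2))
        · exact h2
      · intro h2
        exact ⟨Or.inr h2, hS' h2⟩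
    · ext p
      simp only [mem_inter, mem_union]
      constructor
      · rintro ⟨h2 | h2, h3⟩
        · exact h2
        · exact absurd (hS' h2) (Finset.disjoint_left.1 hPQ h3)
      · intro h2
        exact ⟨Or.inl h2, hE' h2⟩
  · intro F hF
    rw [mem_powerset] at hF
    ext p
    simp only [mem_inter, mem_union]
    constructor
    · rintro (h2 | h2)
      · exact h2.1
      · exact h2.1
    · intro h2
      rcases mem_union.1 (hF h2) with h3 | h3
      · exact Or.inl ⟨h2, h0 h3⟩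
      · exact Or.inr ⟨h2, h1 h3⟩
  · intro x _
    rfl

theorem WSTP_sum {P Q Γ₀ Γ₁ : Finset ℕ} (hPQ : Disjoint P Q) (h0 : Γ₀ ⊆ P) (h1 : Γ₁ ⊆ Q)
    (K : ℕ) (c : ℕ → Finset ℕ → ℝ) (w : ℕ → ℝ) :
    ∑ F ∈ (Γ₀ ∪ Γ₁).powerset, WSTP_c P Q K c F * ∏ p ∈ F, w p =
      ∑ k ∈ range (K + 1), (-1) ^ k * es Γ₁ w k * ∑ E ∈ Γ₀.powerset, c k E * ∏ p ∈ E, w p := by
  rw [WSTP_split hPQ h0 h1]
  have e1 : ∀ S ∈ Γ₁.powerset, ∑ E ∈ Γ₀.powerset, WSTP_c P Q K c (E ∪ S) * ∏ p ∈ E ∪ S, w p =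
      ∑ k ∈ range (K + 1), if S.card = k then
        (-1) ^ k * (∏ p ∈ S, w p) * ∑ E ∈ Γ₀.powerset, c k E * ∏ p ∈ E, w p else 0 := by
    intro S hS
    rw [mem_powerset] at hS
    have hS' : S ⊆ Q := hS.trans h1
    rw [sum_ite_eq (range (K + 1)) S.card]
    have e2 : ∀ E ∈ Γ₀.powerset, WSTP_c P Q K c (E ∪ S) * ∏ p ∈ E ∪ S, w p =
        if S.card ≤ K then (-1) ^ S.card * (∏ p ∈ S, w p) * (c S.card E * ∏ p ∈ E, w p)
          else 0 := by
      intro E hE
      rw [mem_powerset] at hE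
      have hE' : E ⊆ P := hE.trans h0
      have hd : Disjoint E S := hPQ.mono hE' hS'
      have i1 : (E ∪ S) ∩ Q = S := by
        ext p
        simp only [mem_inter, mem_union]
        constructor
        · rintro ⟨h2 | h2, h3⟩
          · exact absurd h3 (Finset.disjoint_left.1 hPQ (hE' h2))
          · exact h2
        · intro h2
          exact ⟨Or.inr h2, hS' h2⟩
      have i2 : (E ∪ S) ∩ P = E := by
        ext p
        simp only [mem_inter, mem_union]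
        constructor
        · rintro ⟨h2 | h2, h3⟩
          · exact h2
          · exact absurd (hS' h2) (Finset.disjoint_left.1 hPQ h3)
        · intro h2
          exact ⟨Or.inl h2, hE' h2⟩
      rw [WSTP_c, i1, i2, prod_union hd]
      split_ifs
      · ring
      · ring
    rw [sum_congr rfl e2]
    by_cases hK : S.card ≤ K
    · simp only [if_pos hK]
      rw [if_pos (mem_range.2 (Nat.lt_succ_of_le hK)), mul_sum]
    · simp only [if_neg hK]
      rw [if_neg fun h => hK (Nat.lt_succ_iff.1 (mem_range.1 h)), sum_const_zero]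
  rw [sum_congr rfl e1, sum_comm]
  refine sum_congr rfl fun k _ => ?_
  rw [← sum_filter, ← powersetCard_eq_filter, ← sum_mul, ← mul_sum]
  rfl

theorem WSTP_main (hSAD : SAD_stmt) {s : ℝ} (hs : s = 1 ∨ s = -1) {h h' B K : ℕ} {v : ℕ → ℝ}
    (hh : h ≤ h') (hKB : K * h' ≤ B) (hKs : (-1 : ℝ) ^ K = -s)
    (hyp : ∀ k ≤ K, WSTP_W ((-1) ^ k * s) h (B - k * h') (v k)) :
    WSTP_W s h' B ((∑ k ∈ range (K + 1), ek (Bl h h') k * v k + ek (Bl h h') (K + 1)) /
      V (Bl h h')) := by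
  have hs2 : s * s = 1 := by rcases hs with rfl | rfl <;> norm_num
  choose! c hc1 hc2 hc3 hc4 using hyp
  have hPr : Pr h' = Pr h ∪ Bl h h' := by
    have hsub : Pr h ⊆ Pr h' := by
      intro p hp
      obtain ⟨h1, h2, h3⟩ := (hSAD.1 h p).1 hp
      exact (hSAD.1 h' p).2 ⟨h1, h2, h3.trans_le (Nat.pow_le_pow_right (by norm_num) hh)⟩
    unfold Bl
    rw [union_sdiff_of_subset hsub]
  have hPQ : Disjoint (Pr h) (Bl h h') := by
    unfold Bl
    exact disjoint_sdiff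
  obtain ⟨P, hP⟩ : ∃ P, P = Pr h := ⟨_, rfl⟩
  obtain ⟨Q, hQ⟩ : ∃ Q, Q = Bl h h' := ⟨_, rfl⟩
  have hVQ : 0 < V Q := by rw [hQ]; exact (hSAD.2.2.2.2.1 h h').2.1
  have hVP : 0 < V P := by rw [hP]; exact (hSAD.2.2.2.2.1 h h').1
  have hV1 : V (Pr h') = V P * V Q := by rw [hP, hQ]; exact hSAD.2.2.1 h h' hh
  have hQm : ∀ p ∈ Q, 7 ≤ p ∧ p ^ 10 < 2 ^ h' := by
    intro p hp
    rw [hQ] at hp
    exact ⟨((hSAD.2.1 h h' p).1 hp).2.1, ((hSAD.2.1 h h' p).1 hp).2.2.2⟩
  rw [← hP, ← hQ] at hPr hPQ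
  rw [← hQ]
  rw [← hP] at hc2 hc3 hc4
  have hsg : ∀ k : ℕ, (-1 : ℝ) ^ k * (-1 : ℝ) ^ k = 1 := by
    intro k
    rw [← mul_pow]
    norm_num
  refine ⟨fun F => if F ⊆ Pr h' then WSTP_c P Q K c F else 0, ?_, ?_, ?_, ?_⟩
  · intro F
    show |(if F ⊆ Pr h' then WSTP_c P Q K c F else 0)| ≤ 1
    split_ifs with h1
    · unfold WSTP_c
      split_ifs with h2
      · rw [abs_mul, abs_pow, abs_neg, abs_one, one_pow, one_mul]
        exact hc1 _ h2 _
      · rw [abs_zero]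
        norm_num
    · rw [abs_zero]
      norm_num
  · intro F hF
    have hF' : (if F ⊆ Pr h' then WSTP_c P Q K c F else 0) ≠ 0 := hF
    by_cases h1 : F ⊆ Pr h'
    · rw [if_pos h1] at hF'
      refine ⟨h1, ?_⟩
      unfold WSTP_c at hF'
      by_cases h2 : (F ∩ Q).card ≤ K
      · rw [if_pos h2] at hF'
        obtain ⟨h3, h4⟩ := hc2 _ h2 _ (right_ne_zero_of_mul hF')
        have h5 : (F ∩ P) ∪ (F ∩ Q) = F := by
          rw [← inter_union_distrib_left, ← hPr]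
          exact inter_eq_left.2 h1
        have h6 : Disjoint (F ∩ P) (F ∩ Q) := hPQ.mono inter_subset_right inter_subset_right
        have h7 : ∏ p ∈ F, p = (∏ p ∈ F ∩ P, p) * ∏ p ∈ F ∩ Q, p := by
          conv_lhs => rw [← h5]
          exact prod_union h6
        have h8 : (∏ p ∈ F ∩ Q, p) ^ 10 ≤ 2 ^ ((F ∩ Q).card * h') := by
          rw [← prod_pow, mul_comm, pow_mul, ← prod_const]
          exact prod_le_prod (fun _ _ => Nat.zero_le _) fun p hp =>
            (hQm p (mem_inter.1 hp).2).2.le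
        have h9 : (F ∩ Q).card * h' ≤ B := (Nat.mul_le_mul_right h' h2).trans hKB
        rw [h7, mul_pow]
        calc (∏ p ∈ F ∩ P, p) ^ 10 * (∏ p ∈ F ∩ Q, p) ^ 10 ≤
            2 ^ (B - (F ∩ Q).card * h') * 2 ^ ((F ∩ Q).card * h') := Nat.mul_le_mul h4 h8
          _ = 2 ^ B := by rw [← pow_add, Nat.sub_add_cancel h9]
      · rw [if_neg h2] at hF'
        exact absurd rfl hF'
    · rw [if_neg h1] at hF'
      exact absurd rfl hF'
  · intro Γ hΓ
    have hΓ' : Γ = (Γ ∩ P) ∪ (Γ ∩ Q) := by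
      rw [← inter_union_distrib_left, ← hPr]
      exact (inter_eq_left.2 hΓ).symm
    have e1 : ∑ E ∈ Γ.powerset, (if E ⊆ Pr h' then WSTP_c P Q K c E else 0) =
        ∑ k ∈ range (K + 1), (-1) ^ k * es (Γ ∩ Q) (fun _ => 1) k *
          ∑ E ∈ (Γ ∩ P).powerset, c k E := by
      have e2 := WSTP_sum hPQ (Γ₀ := Γ ∩ P) (Γ₁ := Γ ∩ Q) inter_subset_right inter_subset_right K c
        fun _ => 1
      simp only [prod_const_one, mul_one] at e2
      rw [← e2, ← hΓ']
      exact sum_congr rfl fun E hE => if_pos ((mem_powerset.1 hE).trans hΓ)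
    rw [e1, mul_sum]
    have hes : ∀ k, 0 ≤ es (Γ ∩ Q) (fun _ => 1) k := fun k =>
      es_nonneg _ _ (fun _ _ => zero_le_one) k
    have e3 : ∀ k ∈ range (K + 1), s * ((-1) ^ k * es (Γ ∩ Q) (fun _ => 1) k *
          ∑ E ∈ (Γ ∩ P).powerset, c k E) ≤
        (if Γ ∩ P = ∅ then (1 : ℝ) else 0) * s * ((-1) ^ k * es (Γ ∩ Q) (fun _ => 1) k) := by
      intro k hk
      have hk' : k ≤ K := Nat.lt_succ_iff.1 (mem_range.1 hk)
      have h3 := mul_le_mul_of_nonneg_left (hc3 k hk' (Γ ∩ P) inter_subset_right) (hes k)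
      calc _ = es (Γ ∩ Q) (fun _ => 1) k * ((-1) ^ k * s * ∑ E ∈ (Γ ∩ P).powerset, c k E) := by
            ring
        _ ≤ _ := h3
        _ = _ := by ring
    refine (sum_le_sum e3).trans ?_
    rw [← mul_sum]
    have hb := (bonferroni (Γ ∩ Q) (fun _ => (1 : ℝ)) (fun _ _ => zero_le_one)
      (fun _ _ => le_refl _) K).1
    rw [hKs] at hb
    have hprod : ∏ p ∈ Γ ∩ Q, (1 - (1 : ℝ)) = if Γ ∩ Q = ∅ then 1 else 0 := by
      split_ifs with h1
      · rw [h1, prod_empty]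
      · obtain ⟨q, hq⟩ := nonempty_iff_ne_empty.2 h1
        exact prod_eq_zero hq (sub_self 1)
    rw [hprod] at hb
    have hts : ts (Γ ∩ Q) (fun _ => (1 : ℝ)) K =
        ∑ k ∈ range (K + 1), (-1) ^ k * es (Γ ∩ Q) (fun _ => 1) k := rfl
    rw [← hts]
    have hδ : (if Γ = ∅ then (1 : ℝ) else 0) =
        (if Γ ∩ P = ∅ then (1 : ℝ) else 0) * if Γ ∩ Q = ∅ then 1 else 0 := by
      by_cases h1 : Γ ∩ P = ∅
      · by_cases h2 : Γ ∩ Q = ∅
        · rw [if_pos h1, if_pos h2, if_pos (by rw [hΓ', h1, h2, union_empty]), one_mul]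
        · rw [if_neg h2, mul_zero, if_neg]
          intro h3
          exact h2 (by rw [h3, empty_inter])
      · rw [if_neg h1, zero_mul, if_neg]
        intro h3
        exact h1 (by rw [h3, empty_inter])
    rw [hδ]
    have hδ0 : (0 : ℝ) ≤ if Γ ∩ P = ∅ then (1 : ℝ) else 0 := by split_ifs <;> norm_num
    have h4 := mul_nonneg hδ0 hb
    linarith
  · have e1 : ∑ E ∈ (Pr h').powerset, (if E ⊆ Pr h' then WSTP_c P Q K c E else 0) * g E =
        ∑ k ∈ range (K + 1), (-1) ^ k * ek Q k * ∑ E ∈ P.powerset, c k E * g E := by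
      have e2 := WSTP_sum hPQ (Γ₀ := P) (Γ₁ := Q) (Subset.refl _) (Subset.refl _) K c
        fun p => (2 / p : ℝ)
      rw [← hPr] at e2
      rw [show ∑ k ∈ range (K + 1), (-1 : ℝ) ^ k * ek Q k * ∑ E ∈ P.powerset, c k E * g E =
        ∑ k ∈ range (K + 1), (-1) ^ k * es Q (fun p => (2 / p : ℝ)) k *
          ∑ E ∈ P.powerset, c k E * ∏ p ∈ E, (2 / p : ℝ) from rfl, ← e2]
      refine sum_congr rfl fun E hE => ?_
      rw [if_pos (mem_powerset.1 hE)]
      rfl
    have e1' : ∑ E ∈ (Pr h').powerset, (fun F => if F ⊆ Pr h' then WSTP_c P Q K c F else 0) E *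
        g E = ∑ k ∈ range (K + 1), (-1) ^ k * ek Q k * ∑ E ∈ P.powerset, c k E * g E := e1
    rw [e1', mul_sum]
    have hek : ∀ k, 0 ≤ ek Q k := fun k => es_nonneg _ _ (fun _ _ => by positivity) k
    have e3 : ∀ k ∈ range (K + 1), V P * (s * ((-1) ^ k * ek Q k) - ek Q k * v k) ≤
        s * ((-1) ^ k * ek Q k * ∑ E ∈ P.powerset, c k E * g E) := by
      intro k hk
      have hk' : k ≤ K := Nat.lt_succ_iff.1 (mem_range.1 hk)
      have h3 := mul_le_mul_of_nonneg_left (hc4 k hk') (hek k)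
      have h4 : ek Q k * ((-1) ^ k * s * (V P * (1 - (-1) ^ k * s * v k))) =
          V P * (s * ((-1) ^ k * ek Q k) - ek Q k * v k) := by
        have h5 : (-1 : ℝ) ^ k * s * ((-1) ^ k * s) = 1 := by
          calc (-1 : ℝ) ^ k * s * ((-1) ^ k * s) = ((-1) ^ k * (-1) ^ k) * (s * s) := by ring
            _ = 1 := by rw [hsg, hs2, one_mul]
        calc _ = V P * (s * ((-1) ^ k * ek Q k) -
              ek Q k * v k * ((-1) ^ k * s * ((-1) ^ k * s))) := by ring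
          _ = _ := by rw [h5, mul_one]
      rw [h4] at h3
      refine h3.trans (le_of_eq ?_)
      ring
    refine le_trans ?_ (sum_le_sum e3)
    rw [← mul_sum, sum_sub_distrib, ← mul_sum]
    have hb := (bonferroni Q (fun p => (2 / p : ℝ)) (fun p _ => by positivity)
      (fun p hp => by
        have h7 : (7 : ℝ) ≤ p := by exact_mod_cast (hQm p hp).1
        rw [div_le_one (by linarith)]
        linarith) K).2
    rw [hKs] at hb
    have hts : ts Q (fun p => (2 / p : ℝ)) K = ∑ k ∈ range (K + 1), (-1) ^ k * ek Q k := rfl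
    rw [hts] at hb
    have hb' : -s * (∑ k ∈ range (K + 1), (-1 : ℝ) ^ k * ek Q k - V Q) ≤ ek Q (K + 1) := hb
    have h6 : s * V Q - ek Q (K + 1) - ∑ k ∈ range (K + 1), ek Q k * v k ≤
        s * ∑ k ∈ range (K + 1), (-1 : ℝ) ^ k * ek Q k - ∑ k ∈ range (K + 1), ek Q k * v k := by
      linarith
    refine le_trans (le_of_eq ?_) (mul_le_mul_of_nonneg_left h6 hVP.le)
    rw [hV1]
    have h7 : s * (V P * V Q * (1 - s * ((∑ k ∈ range (K + 1), ek Q k * v k + ek Q (K + 1)) /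
        V Q))) = V P * (s * V Q - (s * s) * (∑ k ∈ range (K + 1), ek Q k * v k +
          ek Q (K + 1))) := by
      field_simp
    rw [h7, hs2]
    ring

theorem WSTP (hSAD : SAD_stmt) : WSTP_stmt := by
  intro h h' B K v h28 hh hKB
  constructor
  · intro hodd hyp
    rw [← WSTP_lo]
    refine WSTP_main hSAD (Or.inl rfl) hh hKB (by rw [hodd.neg_one_pow]) fun k hk => ?_
    rcases Nat.even_or_odd k with he | ho
    · rw [he.neg_one_pow, one_mul, WSTP_lo]
      exact (hyp k hk).1 he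
    · rw [ho.neg_one_pow, mul_one, WSTP_up]
      exact (hyp k hk).2 ho
  · intro heven hyp
    rw [← WSTP_up]
    refine WSTP_main hSAD (Or.inr rfl) hh hKB (by rw [heven.neg_one_pow]; norm_num) fun k hk => ?_
    rcases Nat.even_or_odd k with he | ho
    · rw [he.neg_one_pow, one_mul, WSTP_up]
      exact (hyp k hk).1 he
    · rw [ho.neg_one_pow, neg_mul_neg, one_mul, WSTP_lo]
      exact (hyp k hk).2 ho

end Pool.Agent.SY
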